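import Pool.Agent.P.MP_fd6048_an.Common

set_option autoImplicit false

namespace Pool.Agent.Results.MP_fd6048_an.CommonInvariant

/-- Countably many hypercyclic operators on an F-space share a dense operator range of full
dimension, which generates for each operator an invariant subspace of hypercyclic vectors. -/
theorem result :
    ∀ (𝕂 : Type) [RCLike 𝕂] (X : Type) [AddCommGroup X] [Module 𝕂 X] [MetricSpace X]
      [CompleteSpace X] [ContinuousSMul 𝕂 X] [Nontrivial X],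
      (∀ x y z : X, dist (x + z) (y + z) = dist x y) →
      ∀ T : ℕ → X →L[𝕂] X,
      (∀ l, ∃ x : X, Dense (Set.range fun n : ℕ => (⇑(T l))^[n] x)) →
      ∃ (J : lp (fun _ : ℕ => 𝕂) 2 → X) (R : Submodule 𝕂 X),
        IsLinearMap 𝕂 J ∧ Continuous J ∧ Function.Injective J ∧
        (R : Set X) = Set.range J ∧ Dense (R : Set X) ∧ Module.rank 𝕂 R = Module.rank 𝕂 X ∧
        ∀ l, ∃ M : Submodule 𝕂 X, R ≤ M ∧ (∀ z ∈ M, T l z ∈ M) ∧
          ∀ z ∈ M, z ≠ 0 → Dense (Set.range fun n : ℕ => (⇑(T l))^[n] z) := by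
  intro 𝕂 _ X _ _ _ _ _ _ hinv T hT
  have hlip : ∀ p q : X × X, dist (p.1 - p.2) (q.1 - q.2) ≤ 2 * dist p q := by
    intro p q
    have h1 : dist (p.1 - p.2) (q.1 - p.2) = dist p.1 q.1 := by
      rw [sub_eq_add_neg, sub_eq_add_neg, hinv]
    have h2 : dist (q.1 - p.2) (q.1 - q.2) = dist q.2 p.2 := by
      rw [← hinv (q.1 - p.2) (q.1 - q.2) (p.2 + q.2 - q.1)]
      congr 1 <;> abel
    have h3 := dist_triangle (p.1 - p.2) (q.1 - p.2) (q.1 - q.2)
    have h4 : dist p.1 q.1 ≤ dist p q := by rw [Prod.dist_eq]; exact le_max_left _ _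
    have h5 : dist p.2 q.2 ≤ dist p q := by rw [Prod.dist_eq]; exact le_max_right _ _
    rw [dist_comm q.2 p.2] at h2
    linarith
  have : IsUniformAddGroup X :=
    ⟨(LipschitzWith.of_dist_le_mul (K := 2) (f := fun p : X × X => p.1 - p.2)
      (fun p q => by simpa using hlip p q)).uniformContinuous⟩
  have key : ∀ (l : ℕ) (z : X), (fun n : ℕ => (⇑(T l))^[n] z) =
      fun n : ℕ => ((T l : X →ₗ[𝕂] X) ^ n) z := fun l z =>
    funext fun n => (Module.End.pow_apply (T l : X →ₗ[𝕂] X) n z).symm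
  obtain ⟨J, h1, h2, h3, h4⟩ := Pool.Agent.P.MP_fd6048_an.common 𝕂 X
    (fun l => (T l : X →ₗ[𝕂] X)) (fun l => (T l).continuous) fun l => by
      obtain ⟨x, hx⟩ := hT l
      exact ⟨x, key l x ▸ hx⟩
  refine ⟨J, LinearMap.range (J : lp (fun _ : ℕ => 𝕂) 2 →ₗ[𝕂] X), ⟨map_add J, map_smul J⟩,
    J.continuous, h1, rfl, h2, h3, fun l => ?_⟩
  let F : (ℕ →₀ lp (fun _ : ℕ => 𝕂) 2) →ₗ[𝕂] X := Finsupp.lsum 𝕂 fun i =>
    ((T l : X →ₗ[𝕂] X) ^ i) ∘ₗ (J : lp (fun _ : ℕ => 𝕂) 2 →ₗ[𝕂] X)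
  have hF : ∀ i v, F (Finsupp.single i v) = ((T l : X →ₗ[𝕂] X) ^ i) (J v) := fun i v => by
    simp [F]
  refine ⟨LinearMap.range F, ?_, ?_, ?_⟩
  · rintro _ ⟨a, rfl⟩
    exact ⟨Finsupp.single 0 a, by simp [hF]⟩
  · rintro _ ⟨a, rfl⟩
    induction a using Finsupp.induction_linear with
    | zero => simp
    | add a b ha hb =>
      rw [map_add, map_add]
      exact add_mem ha hb
    | single i v => exact ⟨Finsupp.single (i + 1) v, by rw [hF, hF, pow_succ']; rfl⟩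
  · rintro _ ⟨a, rfl⟩ hz
    obtain ⟨d, hd⟩ := a.support.exists_nat_subset_range
    have h5 : F a = ∑ i : Fin d, ((T l : X →ₗ[𝕂] X) ^ (i : ℕ)) (J (a i)) := by
      rw [Fin.sum_univ_eq_sum_range (fun i => ((T l : X →ₗ[𝕂] X) ^ i) (J (a i))) d]
      simp only [F, Finsupp.lsum_apply]
      exact Finsupp.sum_of_support_subset a hd _ fun i _ => by simp
    rw [key, h5]
    refine h4 l d (fun i => a i) fun h => hz ?_
    rw [h5]
    exact Finset.sum_eq_zero fun i _ => by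
      have : a i = 0 := congrFun h i
      simp [this]

/-- The question for one operator is the case of a constant sequence. -/
theorem single_operator (𝕂 : Type) [RCLike 𝕂] (X : Type) [AddCommGroup X] [Module 𝕂 X]
    [MetricSpace X] [CompleteSpace X] [ContinuousSMul 𝕂 X] [Nontrivial X]
    (hinv : ∀ x y z : X, dist (x + z) (y + z) = dist x y) (T : X →L[𝕂] X)
    (hT : ∃ x : X, Dense (Set.range fun n : ℕ => (⇑T)^[n] x)) :
    ∃ M : Submodule 𝕂 X, Dense (M : Set X) ∧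
      (∀ x ∈ M, x ≠ 0 → Dense (Set.range fun n : ℕ => (⇑T)^[n] x)) ∧
      Module.rank 𝕂 M = Module.rank 𝕂 X := by
  obtain ⟨_, R, -, -, -, -, h1, h2, h3⟩ := result 𝕂 X hinv (fun _ => T) fun _ => hT
  obtain ⟨M, h4, -, h5⟩ := h3 0
  exact ⟨R, h1, fun x hx => h5 x (h4 hx), h2⟩

end Pool.Agent.Results.MP_fd6048_an.CommonInvariant
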